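import Pool.Agent.Y52.RS.Stm
import Pool.Agent.TH103.VD.Syll

/-! # Project RS: the torsion free quotient -/

set_option autoImplicit false

namespace Pool.Agent.Y434.RS.TT

open Pool.Agent.Y52.RS

/-- the two factors -/
def Gf (J : Type) : Bool → Type
  | true => FreeGroup Bool
  | false => FreeGroup (Option J)

noncomputable instance (J : Type) : ∀ b, Group (Gf J b)
  | true => inferInstanceAs (Group (FreeGroup Bool))
  | false => inferInstanceAs (Group (FreeGroup (Option J)))

/-- the second embedding -/
noncomputable def be (J : Type) : FreeGroup (J ⊕ J) →* FreeGroup (Option J) :=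
  FreeGroup.lift (Sum.elim (fun j => (FreeGroup.of none)⁻¹ * (FreeGroup.of (some j))⁻¹)
    (fun j => (FreeGroup.of none)⁻¹ * FreeGroup.of (some j)))

/-- the labelled permutations -/
noncomputable def ps (J : Type) : FreeGroup (Option J) →* LW Bool (FreeGroup (J ⊕ J)) :=
  FreeGroup.lift fun o => match o with
    | none => ⟨Equiv.swap true false, fun _ => 1⟩
    | some j => ⟨Equiv.swap true false, fun b => if b then FreeGroup.of (Sum.inr j)
        else (FreeGroup.of (Sum.inl j))⁻¹⟩

theorem ps_be (J : Type) (y : FreeGroup (J ⊕ J)) :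
    (ps J (be J y)).p = 1 ∧ (ps J (be J y)).f true = y := by
  have hof : ∀ s : J ⊕ J, (ps J (be J (FreeGroup.of s))).p = 1 ∧
      (ps J (be J (FreeGroup.of s))).f true = FreeGroup.of s := by
    intro s
    rcases s with j | j
    · unfold be ps
      simp only [FreeGroup.lift_apply_of, Sum.elim_inl, map_mul, map_inv]
      refine ⟨?_, ?_⟩
      · rw [LW.mul_p, LW.inv_p, LW.inv_p]
        simp
      · rw [LW.mul_f, LW.inv_f, LW.inv_f, LW.inv_p]
        simp
    · unfold be ps
      simp only [FreeGroup.lift_apply_of, Sum.elim_inr, map_mul, map_inv]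
      refine ⟨?_, ?_⟩
      · rw [LW.mul_p, LW.inv_p]
        simp
      · rw [LW.mul_f, LW.inv_f]
        simp
  induction y using FreeGroup.induction_on with
  | C1 => simp [LW.one_p, LW.one_f]
  | of s => exact hof s
  | inv_of s ih =>
    obtain ⟨h1, h2⟩ := hof s
    rw [map_inv, map_inv, LW.inv_p, LW.inv_f, h1]
    refine ⟨inv_one, ?_⟩
    rw [inv_one, Equiv.Perm.one_apply, h2]
  | mul x y hx hy =>
    rw [map_mul, map_mul, LW.mul_p, LW.mul_f, hx.1, hy.1, Equiv.Perm.one_apply, hx.2, hy.2]
    exact ⟨one_mul _, rfl⟩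

theorem be_inj (J : Type) : Function.Injective (be J) := by
  intro x y h
  rw [← (ps_be J x).2, h, (ps_be J y).2]

theorem free_tf {I : Type} (x : FreeGroup I) (n : ℕ) (hn : n ≠ 0) (h : x ^ n = 1) : x = 1 := by
  have := (inferInstance : IsMulTorsionFree (FreeGroup I))
  exact (pow_eq_one_iff_left hn).1 h

/-- the two embeddings -/
noncomputable def ph {J : Type} (g g' : J → FreeGroup Bool) : ∀ b, FreeGroup (J ⊕ J) →* Gf J b
  | true => (FreeGroup.lift (Sum.elim g g') : FreeGroup (J ⊕ J) →* FreeGroup Bool)
  | false => be J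

theorem ph_inj {J : Type} (g g' : J → FreeGroup Bool)
    (h : Function.Injective (FreeGroup.lift (Sum.elim g g'))) : ∀ b, Function.Injective (ph g g' b)
  | true => h
  | false => be_inj J

theorem gf_tf (J : Type) : ∀ b, ∀ (x : Gf J b) (n : ℕ), n ≠ 0 → x ^ n = 1 → x = 1
  | true => fun x n hn h => free_tf (I := Bool) x n hn h
  | false => fun x n hn h => free_tf (I := Option J) x n hn h

/-- TT -/
theorem main : S_TT := by
  intro J g g' hinj
  have hφ := ph_inj g g' hinj
  obtain ⟨α, hα⟩ : ∃ α : FreeGroup Bool →* Monoid.PushoutI (ph g g'),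
      α = Monoid.PushoutI.of (φ := ph g g') true := ⟨_, rfl⟩
  obtain ⟨β, hβ⟩ : ∃ β : FreeGroup (Option J) →* Monoid.PushoutI (ph g g'),
      β = Monoid.PushoutI.of (φ := ph g g') false := ⟨_, rfl⟩
  have hβi : Function.Injective β := by
    rw [hβ]
    exact Monoid.PushoutI.of_injective hφ false
  have e1 : ∀ s : J ⊕ J, α (Sum.elim g g' s) = β (be J (FreeGroup.of s)) := by
    intro s
    have k1 : α (Sum.elim g g' s) = Monoid.PushoutI.of (φ := ph g g') true
        (ph g g' true (FreeGroup.of s)) := by
      rw [hα]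
      congr 1
      exact (FreeGroup.lift_apply_of ..).symm
    rw [k1, Monoid.PushoutI.of_apply_eq_base,
      ← Monoid.PushoutI.of_apply_eq_base (φ := ph g g') false, hβ]
    rfl
  have eg : ∀ j, α (g j) = (β (FreeGroup.of none))⁻¹ * (β (FreeGroup.of (some j)))⁻¹ := by
    intro j
    have := e1 (Sum.inl j)
    rw [Sum.elim_inl] at this
    rw [this]
    unfold be
    rw [FreeGroup.lift_apply_of, Sum.elim_inl, map_mul, map_inv, map_inv]
  have eg' : ∀ j, α (g' j) = (β (FreeGroup.of none))⁻¹ * β (FreeGroup.of (some j)) := by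
    intro j
    have := e1 (Sum.inr j)
    rw [Sum.elim_inr] at this
    rw [this]
    unfold be
    rw [FreeGroup.lift_apply_of, Sum.elim_inr, map_mul, map_inv]
  refine ⟨Monoid.PushoutI (ph g g'), inferInstance, α, β (FreeGroup.of none), ?_, ?_, ?_⟩
  · intro x n hn hx
    exact Pool.Agent.TH103.VD.amalg_tf hφ (gf_tf J) x n hn hx
  · intro j
    rw [eg, eg']
    group
  · have key : ∀ y : FreeGroup J, FreeGroup.lift (fun j => α (g' j) * β (FreeGroup.of none)) y =
        (β (FreeGroup.of none))⁻¹ * β (FreeGroup.map some y) * β (FreeGroup.of none) := by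
      intro y
      induction y using FreeGroup.induction_on with
      | C1 => simp
      | of j =>
        rw [FreeGroup.lift_apply_of, eg', FreeGroup.map.of]
      | inv_of j ih =>
        rw [map_inv, FreeGroup.lift_apply_of, eg', map_inv, map_inv, FreeGroup.map.of]
        group
      | mul x y hx hy =>
        rw [map_mul, hx, hy, map_mul, map_mul]
        group
    intro x y h
    rw [key, key] at h
    have h1 : β (FreeGroup.map some x) = β (FreeGroup.map some y) :=
      mul_left_cancel (mul_right_cancel h)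
    exact FreeGroup.map_injective (Option.some_injective J) (hβi h1)


end Pool.Agent.Y434.RS.TT
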